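import Mathlib

/-! A left cancellative semigroup without idempotents in which all elements are o-conjugate. -/

set_option autoImplicit false

namespace Pool.Agent.X329.OConj

open Ordinal Function

/-- The injective functions on the ordinals which move every ordinal up and leave out arbitrarily
large ordinals. -/
structure T : Type 1 where
  f : Ordinal.{0} → Ordinal.{0}
  inj : Injective f
  gt : ∀ a, a < f a
  co : ∀ b, ∃ c, b < c ∧ c ∉ Set.range f

theorem T.ext' {s t : T} (h : ∀ a, s.f a = t.f a) : s = t := by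
  cases s; cases t
  congr
  exact funext h

instance : Semigroup T where
  mul s t :=
    { f := s.f ∘ t.f
      inj := s.inj.comp t.inj
      gt := fun a => (t.gt a).trans (s.gt _)
      co := fun b => by
        obtain ⟨c, h1, h2⟩ := s.co b
        refine ⟨c, h1, ?_⟩
        rintro ⟨a, rfl⟩
        exact h2 ⟨t.f a, rfl⟩ }
  mul_assoc _ _ _ := rfl

theorem mul_f (s t : T) (a : Ordinal.{0}) : (s * t).f a = s.f (t.f a) := rfl

section

variable (s t : T)

/-- the ordinals which are not of the form `s a` -/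
def R : Set Ordinal.{0} := {c | c ∉ Set.range s.f}

theorem not_bdd : ¬ BddAbove (R s) := by
  rintro ⟨b, hb⟩
  obtain ⟨c, h1, h2⟩ := s.co b
  exact absurd (hb h2) (not_le.2 h1)

noncomputable def β (a : Ordinal.{0}) : Ordinal.{0} := ⨆ k : ℕ, t.f^[k] a

noncomputable def B (a : Ordinal.{0}) : Ordinal.{0} := ⨆ x : Set.Iic a, β t x

noncomputable def H (a : Ordinal.{0}) : Ordinal.{0} := B t a + Order.succ a

noncomputable def ρ (a : Ordinal.{0}) : Ordinal.{0} := enumOrd (R s) (H t a)

theorem self_le_β (a : Ordinal.{0}) : a ≤ β t a := Ordinal.le_iSup (fun k : ℕ => t.f^[k] a) 0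

theorem β_step (a : Ordinal.{0}) : β t (t.f a) ≤ β t a := by
  refine Ordinal.iSup_le fun k => ?_
  have h : t.f^[k] (t.f a) = t.f^[k + 1] a := (iterate_succ_apply t.f k a).symm
  rw [h]
  exact Ordinal.le_iSup (fun k : ℕ => t.f^[k] a) (k + 1)

theorem β_le_B (a : Ordinal.{0}) : β t a ≤ B t a :=
  Ordinal.le_iSup (fun x : Set.Iic a => β t x) ⟨a, Set.mem_Iic.2 le_rfl⟩

theorem B_mono {a b : Ordinal.{0}} (h : a ≤ b) : B t a ≤ B t b := by
  refine Ordinal.iSup_le fun x => ?_
  exact Ordinal.le_iSup (fun x : Set.Iic b => β t x) ⟨x.1, le_trans x.2 h⟩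

theorem H_mono : StrictMono (H t) := by
  intro a b hab
  calc B t a + Order.succ a ≤ B t b + Order.succ a := add_le_add_left (B_mono t hab.le) _
    _ < B t b + Order.succ b := (add_lt_add_iff_left _).2 (Order.succ_lt_succ hab)

theorem β_lt_H (a : Ordinal.{0}) : β t a < H t a := by
  refine (β_le_B t a).trans_lt ?_
  conv_lhs => rw [← add_zero (B t a)]
  exact (add_lt_add_iff_left _).2 (lt_of_le_of_lt (zero_le) (Order.lt_succ a))

open Classical in
/-- the function `g` with `s g = g t` -/
noncomputable def g : Ordinal.{0} → Ordinal.{0} :=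
  WellFounded.fix (lt_wf : WellFounded (fun a b : Ordinal.{0} => a < b)) fun a ih =>
    if h : ∃ a', t.f a' = a then s.f (ih h.choose (by
      have h1 := h.choose_spec
      conv_rhs => rw [← h1]
      exact t.gt _)) else ρ s t a

theorem g_step (a : Ordinal.{0}) : g s t (t.f a) = s.f (g s t a) := by
  have h : ∃ a', t.f a' = t.f a := ⟨a, rfl⟩
  have h1 : g s t (t.f a) = s.f (g s t h.choose) := by
    conv_lhs => rw [g, WellFounded.fix_eq]
    rw [dif_pos h]
    rfl
  rw [h1, t.inj h.choose_spec]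

theorem g_root (a : Ordinal.{0}) (ha : a ∉ Set.range t.f) : g s t a = ρ s t a := by
  have h : ¬ ∃ a', t.f a' = a := fun ⟨a', h⟩ => ha ⟨a', h⟩
  conv_lhs => rw [g, WellFounded.fix_eq]
  rw [dif_neg h]

theorem β_lt_g (a : Ordinal.{0}) : β t a < g s t a := by
  induction a using WellFounded.induction (lt_wf : WellFounded (fun a b : Ordinal.{0} => a < b)) with
  | _ a ih =>
    by_cases h : a ∈ Set.range t.f
    · obtain ⟨a', rfl⟩ := h
      rw [g_step]
      exact ((β_step t a').trans_lt (ih a' (t.gt a'))).trans (s.gt _)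
    · rw [g_root s t a h]
      exact (β_lt_H t a).trans_le (le_enumOrd_self (not_bdd s))

theorem ρ_notMem (a : Ordinal.{0}) : ρ s t a ∉ Set.range s.f := enumOrd_mem (not_bdd s) _

theorem g_inj : Injective (g s t) := by
  intro a
  induction a using WellFounded.induction (lt_wf : WellFounded (fun a b : Ordinal.{0} => a < b)) with
  | _ a ih =>
    intro b hab
    by_cases ha : a ∈ Set.range t.f
    · obtain ⟨a', rfl⟩ := ha
      by_cases hb : b ∈ Set.range t.f
      · obtain ⟨b', rfl⟩ := hb
        rw [g_step, g_step] at hab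
        rw [ih a' (t.gt a') (s.inj hab)]
      · rw [g_step, g_root s t b hb] at hab
        exact absurd ⟨_, hab⟩ (ρ_notMem s t b)
    · by_cases hb : b ∈ Set.range t.f
      · obtain ⟨b', rfl⟩ := hb
        rw [g_step, g_root s t a ha] at hab
        exact absurd ⟨_, hab.symm⟩ (ρ_notMem s t a)
      · rw [g_root s t a ha, g_root s t b hb] at hab
        exact (H_mono t).injective (enumOrd_injective (not_bdd s) hab)

theorem g_co (b : Ordinal.{0}) : ∃ c, b < c ∧ c ∉ Set.range (g s t) := by
  have hlim : Order.IsSuccLimit (b + ω) := isSuccLimit_add b isSuccLimit_omega0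
  refine ⟨enumOrd (R s) (b + ω), ?_, ?_⟩
  · refine lt_of_lt_of_le ?_ (le_enumOrd_self (not_bdd s))
    conv_lhs => rw [← add_zero b]
    exact (add_lt_add_iff_left _).2 omega0_pos
  · rintro ⟨a, ha⟩
    by_cases h : a ∈ Set.range t.f
    · obtain ⟨a', rfl⟩ := h
      rw [g_step] at ha
      exact enumOrd_mem (not_bdd s) (b + ω) ⟨_, ha⟩
    · rw [g_root s t a h] at ha
      have h1 := enumOrd_injective (not_bdd s) ha
      have h2 : Order.succ (B t a + a) = b + ω := by
        rw [← h1, H, Order.succ_eq_add_one, Order.succ_eq_add_one, add_assoc]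
      exact hlim.succ_ne _ h2

theorem exists_semiconj : ∃ g : T, s * g = g * t :=
  ⟨⟨g s t, g_inj s t, fun a => (self_le_β t a).trans_lt (β_lt_g s t a), g_co s t⟩,
    T.ext' fun a => (g_step s t a).symm⟩

theorem ne_mul (g t : T) : g ≠ g * t := by
  intro h
  have h1 : g.f 0 = g.f (t.f 0) := congrFun (congrArg T.f h) 0
  exact absurd (g.inj h1) (t.gt 0).ne

theorem nonempty : Nonempty T :=
  ⟨⟨fun a => Order.succ a, Order.succ_injective, Order.lt_succ, fun b => ⟨b + ω, by
      conv_lhs => rw [← add_zero b]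
      exact (add_lt_add_iff_left _).2 omega0_pos, by
      rintro ⟨a, ha⟩
      exact (isSuccLimit_add b isSuccLimit_omega0).succ_ne a ha⟩⟩⟩

end

theorem exists_countable : ∃ U : Subsemigroup T, Countable U ∧ Nonempty U ∧
    ∀ s t : U, ∃ g : U, s * g = g * t := by
  choose G hG using exists_semiconj
  obtain ⟨t0⟩ := nonempty
  let S : ℕ → Set T := fun n => Nat.rec {t0}
    (fun _ A => A ∪ (Set.image2 (· * ·) A A ∪ Set.image2 G A A)) n
  have hS : ∀ n, S (n + 1) = S n ∪ (Set.image2 (· * ·) (S n) (S n) ∪ Set.image2 G (S n) (S n)) :=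
    fun _ => rfl
  have hmono : Monotone S := monotone_nat_of_le_succ fun n => by
    rw [hS]; exact Set.subset_union_left
  have hc : ∀ n, (S n).Countable := by
    intro n
    induction n with
    | zero => exact Set.countable_singleton _
    | succ n ih =>
      rw [hS]
      exact ih.union ((ih.image2 ih _).union (ih.image2 ih _))
  have hpair : ∀ {s t : T}, s ∈ ⋃ n, S n → t ∈ ⋃ n, S n → ∃ n, s ∈ S n ∧ t ∈ S n := by
    intro s t hs ht
    obtain ⟨m, hm⟩ := Set.mem_iUnion.1 hs
    obtain ⟨n, hn⟩ := Set.mem_iUnion.1 ht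
    exact ⟨max m n, hmono (le_max_left m n) hm, hmono (le_max_right m n) hn⟩
  let U : Subsemigroup T :=
    { carrier := ⋃ n, S n
      mul_mem' := by
        intro s t hs ht
        obtain ⟨n, h1, h2⟩ := hpair hs ht
        refine Set.mem_iUnion.2 ⟨n + 1, ?_⟩
        rw [hS]
        exact Or.inr (Or.inl ⟨s, h1, t, h2, rfl⟩) }
  refine ⟨U, (Set.countable_iUnion hc).to_subtype,
    ⟨⟨t0, Set.mem_iUnion.2 ⟨0, rfl⟩⟩⟩, fun s t => ?_⟩
  obtain ⟨n, h1, h2⟩ := hpair s.2 t.2
  refine ⟨⟨G s t, Set.mem_iUnion.2 ⟨n + 1, ?_⟩⟩, Subtype.ext (hG s t)⟩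
  rw [hS]
  exact Or.inr (Or.inr ⟨s, h1, t, h2, rfl⟩)

/-- the same on a type of the lowest universe -/
theorem exists_type : ∃ (V : Type) (_ : Semigroup V), Countable V ∧ Nonempty V ∧
    (∀ s t : V, ∃ g : V, s * g = g * t) ∧ ∀ g t : V, g ≠ g * t := by
  obtain ⟨U, h1, h2, h3⟩ := exists_countable
  have : Small.{0} U := Countable.toSmall U
  let m : Shrink.{0} U ≃* U := Shrink.mulEquiv
  refine ⟨Shrink.{0} U, inferInstance, Countable.of_equiv _ m.symm.toEquiv,
    h2.map m.symm, fun s t => ?_, fun g t h => ?_⟩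
  · obtain ⟨g, hg⟩ := h3 (m s) (m t)
    refine ⟨m.symm g, m.injective ?_⟩
    rw [map_mul, map_mul, MulEquiv.apply_symm_apply, hg]
  · have h4 := congrArg m h
    rw [map_mul] at h4
    exact ne_mul (m g : T) (m t : T) (congrArg Subtype.val h4)

end Pool.Agent.X329.OConj
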